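import Mathlib

set_option autoImplicit false

namespace Pool.Agent.Results.MP_b41bf9_ag.Counter
open MvPolynomial

/-- The map on geometric points of affine `n`-space given by `n` polynomials over `F`. -/
noncomputable def Tm {F : Type} [Field F] {n : ℕ} (f : Fin n → MvPolynomial (Fin n) F)
    (p : Fin n → AlgebraicClosure F) : Fin n → AlgebraicClosure F := fun i => aeval p (f i)

/-- Geometric points of the closed subvariety cut out by a set of polynomials over `F`. -/
def V {F : Type} [Field F] {n : ℕ} (S : Set (MvPolynomial (Fin n) F)) :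
    Set (Fin n → AlgebraicClosure F) := {p | ∀ g ∈ S, aeval p g = 0}

abbrev F2 := ZMod 2
abbrev K := AlgebraicClosure F2
noncomputable def f0 : Fin 3 → MvPolynomial (Fin 3) F2 :=
  ![X 0 + X 0 * X 1, X 0 * X 1, X 2 + X 2 * X 1]

lemma T0 (p : Fin 3 → K) : Tm f0 p 0 = p 0 + p 0 * p 1 := by simp [Tm, f0]
lemma T1 (p : Fin 3 → K) : Tm f0 p 1 = p 0 * p 1 := by simp [Tm, f0]
lemma T2 (p : Fin 3 → K) : Tm f0 p 2 = p 2 + p 2 * p 1 := by simp [Tm, f0]

lemma ext3 {p q : Fin 3 → K} (h0 : p 0 = q 0) (h1 : p 1 = q 1) (h2 : p 2 = q 2) : p = q := by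
  funext i; fin_cases i
  · exact h0
  · exact h1
  · exact h2

lemma fix (s : K) : Tm f0 ![0, 0, s] = ![0, 0, s] :=
  ext3 (by simp [T0]) (by simp [T1]) (by simp [T2])

lemma inj {p q : Fin 3 → K} (h : Tm f0 p = Tm f0 q) (hp : Tm f0 p 0 ≠ 0) : p = q := by
  have h0 := congrFun h 0
  have h1 := congrFun h 1
  have h2 := congrFun h 2
  rw [T0] at hp
  rw [T0, T0] at h0
  rw [T1, T1] at h1
  rw [T2, T2] at h2
  have hp' : p 0 * (1 + p 1) ≠ 0 := by rwa [mul_add, mul_one]
  have e0 : p 0 = q 0 := by linear_combination h0 - h1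
  rw [← e0] at h1
  have e1 := mul_left_cancel₀ (left_ne_zero_of_mul hp') h1
  refine ext3 e0 e1 (mul_right_cancel₀ (right_ne_zero_of_mul hp') ?_)
  rw [← e1] at h2
  linear_combination h2

lemma ne0 {p : Fin 3 → K} (h : Tm f0 p 0 ≠ 0) : p 0 ≠ 0 := fun e => h (by simp [T0, e])

lemma inj_iter (m : ℕ) : ∀ {p q : Fin 3 → K}, (Tm f0)^[m] p = (Tm f0)^[m] q →
    ((Tm f0)^[m] p) 0 ≠ 0 → p = q := by
  induction m with
  | zero => exact fun h _ => h
  | succ m ih =>
    intro p q h hp
    rw [Function.iterate_succ_apply', Function.iterate_succ_apply'] at h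
    rw [Function.iterate_succ_apply'] at hp
    exact ih (inj h hp) (ne0 hp)

lemma notim {t s : K} {q : Fin 3 → K} (h : ![t, t, s] = Tm f0 q) : t = 0 := by
  have h0 := congrFun h 0
  have h1 := congrFun h 1
  rw [T0] at h0
  rw [T1] at h1
  simp at h0 h1
  have : q 0 = 0 := by linear_combination h1 - h0
  rw [h1, this, zero_mul]

lemma param (k : ℕ) : ∃ a b : Polynomial K, a.eval 0 = 1 ∧ b.eval 0 = 1 ∧
    ∀ t u, (Tm f0)^[k] ![t, t, u * t] = ![t * a.eval t, t ^ (k + 1) * b.eval t, u * (t * a.eval t)] := by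
  induction k with
  | zero => exact ⟨1, 1, by simp, by simp, fun t u => by simp⟩
  | succ k ih =>
    obtain ⟨a, b, ha, hb, h⟩ := ih
    refine ⟨a * (1 + .X ^ (k + 1) * b), a * b, by simp [ha], by simp [ha, hb], fun t u => ?_⟩
    rw [Function.iterate_succ_apply', h]
    refine ext3 ?_ ?_ ?_
    · simp [T0]; ring
    · simp [T1]; ring
    · simp [T2]; ring

lemma hit (t u : K) : ∃ k, 1 ≤ k ∧ (Tm f0)^[k] ![t, t, u * t] = 0 := by
  by_contra hc
  push Not at hc
  have hx : ∀ k, ((Tm f0)^[k] ![t, t, u * t]) 0 ≠ 0 := by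
    intro k h
    apply hc (k + 1) (by omega)
    obtain ⟨a, b, -, -, e⟩ := param k
    rw [Function.iterate_succ_apply']
    rw [e] at h ⊢
    have h : t * a.eval t = 0 := h
    exact ext3 (by simp [T0, h]) (by simp [T1, h]) (by simp [T2, h])
  let L := IntermediateField.adjoin F2 {t, u}
  have : FiniteDimensional F2 L := IntermediateField.finiteDimensional_adjoin
    fun x _ => Algebra.IsIntegral.isIntegral x
  have : Finite L := Module.finite_of_finite F2
  have ht : t ∈ L := IntermediateField.subset_adjoin _ _ (by simp)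
  have hu : u ∈ L := IntermediateField.subset_adjoin _ _ (by simp)
  have hL : ∀ k i, ((Tm f0)^[k] ![t, t, u * t]) i ∈ L := by
    intro k
    induction k with
    | zero =>
      intro i; fin_cases i
      · exact ht
      · exact ht
      · exact L.mul_mem hu ht
    | succ k ih =>
      intro i
      rw [Function.iterate_succ_apply']
      fin_cases i
      · exact (T0 _).symm ▸ L.add_mem (ih 0) (L.mul_mem (ih 0) (ih 1))
      · exact (T1 _).symm ▸ L.mul_mem (ih 0) (ih 1)
      · exact (T2 _).symm ▸ L.add_mem (ih 2) (L.mul_mem (ih 2) (ih 1))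
  have key : ∀ a b, a < b → (Tm f0)^[a] ![t, t, u * t] ≠ (Tm f0)^[b] ![t, t, u * t] := by
    intro a b hab h
    obtain ⟨c, rfl⟩ := Nat.exists_eq_add_of_lt hab
    rw [add_assoc, Function.iterate_add_apply] at h
    have := inj_iter a h (hx a)
    rw [Function.iterate_succ_apply'] at this
    exact hx 0 (notim this)
  obtain ⟨a, b, hab, h⟩ := Finite.exists_ne_map_eq_of_infinite
    (fun k : ℕ => fun i : Fin 3 => (⟨_, hL k i⟩ : L))
  have h' : (Tm f0)^[a] ![t, t, u * t] = (Tm f0)^[b] ![t, t, u * t] :=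
    funext fun i => congrArg Subtype.val (congrFun h i)
  rcases lt_or_gt_of_ne hab with h1 | h1
  · exact key a b h1 h'
  · exact key b a h1 h'.symm

lemma ev (g : MvPolynomial (Fin 3) F2) (v : Fin 3 → Polynomial K) (t : K) :
    (aeval v g).eval t = aeval (fun i => (v i).eval t) g := by
  induction g using MvPolynomial.induction_on with
  | C a => simp [Polynomial.algebraMap_apply]
  | add p q hp hq => simp [hp, hq]
  | mul_X p i hp => simp [hp]

lemma zero_of_inf (g : MvPolynomial (Fin 3) F2) (v : Fin 3 → Polynomial K)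
    (h : {t | aeval (fun i => (v i).eval t) g = 0}.Infinite) (t : K) :
    aeval (fun i => (v i).eval t) g = 0 := by
  rw [← ev, Polynomial.eq_zero_of_infinite_isRoot (aeval v g) (by simpa [ev] using h)]
  simp

lemma cofin {p : Polynomial K} (hp : p ≠ 0) : {t | p.eval t ≠ 0}.Infinite := by
  have : {t | p.eval t = 0}.Finite := Polynomial.finite_setOf_isRoot hp
  simpa [Set.compl_setOf] using this.infinite_compl

lemma Xa {a : Polynomial K} (ha : a.eval 0 = 1) : (Polynomial.X * a : Polynomial K) ≠ 0 :=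
  mul_ne_zero Polynomial.X_ne_zero (by rintro rfl; simp at ha)

/-- parameters `u` whose `j`-th curve lies in `V S` -/
def Bad (S : Set (MvPolynomial (Fin 3) F2)) (j : ℕ) : Set K :=
  {u | ∀ t, (Tm f0)^[j] ![t, t, u * t] ∈ V S}

lemma bad_fin {S : Set (MvPolynomial (Fin 3) F2)} {s : K} (hs : ![0, 0, s] ∉ V S) (j : ℕ) :
    (Bad S j).Finite := by
  by_contra hinf
  apply hs
  intro g hg
  obtain ⟨a, b, ha, -, e⟩ := param j
  have h1 : ∀ t u : K, aeval ![t * a.eval t, t ^ (j + 1) * b.eval t, u * (t * a.eval t)] g = 0 := by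
    intro t u
    have hv : ∀ u : K, (fun i => (![Polynomial.C (t * a.eval t), .C (t ^ (j + 1) * b.eval t),
        .X * .C (t * a.eval t)] i).eval u) = ![t * a.eval t, t ^ (j + 1) * b.eval t, u * (t * a.eval t)] :=
      fun u => ext3 (by simp) (by simp) (by simp)
    rw [← hv]
    refine zero_of_inf g _ (Set.Infinite.mono (fun u hu => ?_) hinf) u
    rw [Set.mem_setOf_eq, hv, ← e]
    exact hu t g hg
  have hv : ∀ t : K, (fun i => (![Polynomial.X * a, .X ^ (j + 1) * b, .C s] i).eval t) =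
      ![t * a.eval t, t ^ (j + 1) * b.eval t, s] := fun t => ext3 (by simp) (by simp) (by simp)
  have := zero_of_inf g ![Polynomial.X * a, .X ^ (j + 1) * b, .C s]
    (Set.Infinite.mono (fun t ht => ?_) (cofin (Xa ha))) 0
  · rw [hv] at this; simpa using this
  · have ht : t * a.eval t ≠ 0 := by simpa using ht
    rw [Set.mem_setOf_eq, hv, ← h1 t (s / (t * a.eval t)), div_mul_cancel₀ _ ht]

lemma bad_large {g : MvPolynomial (Fin 3) F2} (hg : g ≠ 0) : ∃ φ : Polynomial K, φ ≠ 0 ∧
    ∀ u, φ.eval u ≠ 0 → ∀ j, g.totalDegree ≤ j → ∃ t, aeval ((Tm f0)^[j] ![t, t, u * t]) g ≠ 0 := by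
  classical
  obtain ⟨m1, hm1, hmin1⟩ := g.support.exists_min_image (fun m => m 1) (support_nonempty.2 hg)
  obtain ⟨m0, hm0, hmin0⟩ := (g.support.filter fun m => m 1 = m1 1).exists_min_image
    (fun m => m 0 + m 2) ⟨m1, by simp [hm1]⟩
  obtain ⟨hm0, hm01⟩ := Finset.mem_filter.1 hm0
  let c : (Fin 3 →₀ ℕ) → K := fun m => algebraMap F2 K (coeff m g)
  let A := g.support.filter fun m => m 1 = m0 1 ∧ m 0 + m 2 = m0 0 + m0 2
  refine ⟨∑ m ∈ A, Polynomial.monomial (m 2) (c m), fun h => ?_, fun u hu j hj => ?_⟩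
  · have := congrArg (fun p => Polynomial.coeff p (m0 2)) h
    simp only [Polynomial.finsetSum_coeff, Polynomial.coeff_monomial, Polynomial.coeff_zero] at this
    rw [Finset.sum_eq_single m0, if_pos rfl] at this
    · exact mem_support_iff.1 hm0 ((map_eq_zero _).1 this)
    · intro m hm hne
      refine if_neg fun h2 => hne ?_
      obtain ⟨-, h3, h4⟩ := Finset.mem_filter.1 hm
      ext i; fin_cases i
      · show m 0 = m0 0; omega
      · exact h3
      · exact h2
    · intro h; exact absurd (Finset.mem_filter.2 ⟨hm0, rfl, rfl⟩) h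
  · obtain ⟨a, b, ha, hb, e⟩ := param j
    let w : (Fin 3 →₀ ℕ) → ℕ := fun m => m 0 + m 2 + (j + 1) * m 1
    have hD : m0 0 + m0 2 ≤ j := by
      have := le_totalDegree hm0
      rw [Finsupp.sum_fintype _ _ (fun _ => rfl), Fin.sum_univ_three] at this
      omega
    have hw : ∀ m ∈ g.support, w m0 ≤ w m ∧ (w m = w m0 → m ∈ A) := by
      intro m hm
      have h1 := hmin1 m hm
      rcases eq_or_lt_of_le h1 with h2 | h2
      · have h3 := hmin0 m (Finset.mem_filter.2 ⟨hm, h2.symm⟩)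
        simp only [w, hm01, ← h2] at h3 ⊢
        exact ⟨by omega, fun h => Finset.mem_filter.2 ⟨hm, by omega, by omega⟩⟩
      · have h3 : (j + 1) * (m0 1 + 1) ≤ (j + 1) * m 1 := Nat.mul_le_mul_left _ (by omega)
        simp only [w]
        rw [mul_add, mul_one] at h3
        exact ⟨by omega, fun h => by omega⟩
    let E : Polynomial K := ∑ m ∈ g.support, .C (c m * u ^ m 2) * .X ^ (w m - w m0) *
      a ^ (m 0 + m 2) * b ^ m 1
    have hE : ∀ t, aeval ((Tm f0)^[j] ![t, t, u * t]) g = t ^ w m0 * E.eval t := by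
      intro t
      rw [e, aeval_def, eval₂_eq', Polynomial.eval_finsetSum, Finset.mul_sum]
      refine Finset.sum_congr rfl fun m hm => ?_
      have : t ^ w m0 * t ^ (w m - w m0) = t ^ (m 0 + m 2 + (j + 1) * m 1) := by
        rw [← pow_add, Nat.add_sub_cancel' (hw m hm).1]
      simp only [Fin.prod_univ_three, Matrix.cons_val, Polynomial.eval_mul, Polynomial.eval_C,
        Polynomial.eval_pow, Polynomial.eval_X, c]
      rw [pow_add, pow_add, pow_mul] at this
      simp only [mul_pow, pow_add] at this ⊢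
      linear_combination -(algebraMap F2 K (coeff m g) * u ^ m 2 * a.eval t ^ m 0 * a.eval t ^ m 2 *
        b.eval t ^ m 1) * this
    have hE0 : E ≠ 0 := by
      intro h
      apply hu
      have := congrArg (Polynomial.eval 0) h
      simp only [E, Polynomial.eval_finsetSum, Polynomial.eval_mul, Polynomial.eval_C,
        Polynomial.eval_pow, Polynomial.eval_X, ha, hb, one_pow, mul_one, Polynomial.eval_zero] at this
      rw [← this, Polynomial.eval_finsetSum, Finset.sum_filter]
      refine Finset.sum_congr rfl fun m hm => ?_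
      split_ifs with h1
      · have : w m - w m0 = 0 := by simp only [w, h1.1, h1.2]; omega
        simp [this]
      · have : w m - w m0 ≠ 0 := fun h2 =>
          h1 (Finset.mem_filter.1 ((hw m hm).2 (by have := (hw m hm).1; omega))).2
        simp [this]
    obtain ⟨t, ht⟩ := (cofin (mul_ne_zero (pow_ne_zero (w m0) Polynomial.X_ne_zero) hE0)).nonempty
    exact ⟨t, by rw [hE]; simpa using ht⟩

lemma good {S : Set (MvPolynomial (Fin 3) F2)} {s : K} (hs : ![0, 0, s] ∉ V S) :
    ∃ u : K, u ≠ 0 ∧ ∀ j, u ∉ Bad S j := by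
  have : ∃ g ∈ S, g ≠ 0 := by
    by_contra hc
    push Not at hc
    exact hs fun g hg => by rw [hc g hg, map_zero]
  obtain ⟨g, hgS, hg⟩ := this
  obtain ⟨φ, hφ, h⟩ := bad_large hg
  obtain ⟨u, hu, hu'⟩ := (cofin (mul_ne_zero Polynomial.X_ne_zero hφ)).exists_notMem_finite
    ((Set.finite_Iio g.totalDegree).biUnion fun j _ => bad_fin hs j)
  have hu : u * φ.eval u ≠ 0 := by simpa using hu
  refine ⟨u, left_ne_zero_of_mul hu, fun j hj => ?_⟩
  rcases lt_or_ge j g.totalDegree with h1 | h1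
  · exact hu' (Set.mem_biUnion h1 hj)
  · obtain ⟨t, ht⟩ := h u (right_ne_zero_of_mul hu) j h1
    exact ht (hj t g hgS)

lemma ord {u : K} (hu : u ≠ 0) : ∃ r, 0 < r ∧ u ^ r = 1 := by
  let L := IntermediateField.adjoin F2 {u}
  have : FiniteDimensional F2 L := IntermediateField.adjoin.finiteDimensional (Algebra.IsIntegral.isIntegral u)
  have : Finite L := Module.finite_of_finite F2
  let x : L := ⟨u, IntermediateField.mem_adjoin_simple_self _ _⟩
  have hx : x ≠ 0 := fun h => hu (congrArg Subtype.val h)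
  obtain ⟨r, hr, h⟩ := isOfFinOrder_iff_pow_eq_one.1 (isOfFinOrder_of_finite (Units.mk0 x hx))
  exact ⟨r, hr, congrArg (fun y : Lˣ => ((y : L) : K)) h⟩

theorem result : ∃ (F : Type) (_ : Field F) (_ : Finite F) (n : ℕ)
    (f : Fin n → MvPolynomial (Fin n) F), ∀ SY : Set (MvPolynomial (Fin n) F),
    (∃ Φ : Set (Fin n → AlgebraicClosure F), Φ.Finite ∧ (∀ P ∈ Φ, Tm f P = P) ∧
      ∀ y ∈ V SY, ∃ k, 1 ≤ k ∧ (Tm f)^[k] y ∈ Φ) →
    ∃ SZ : Set (MvPolynomial (Fin n) F),
      (∃ P, Tm f P = P ∧ ∀ z ∈ V SZ, ∃ k, 1 ≤ k ∧ (Tm f)^[k] z = P) ∧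
      ∀ k m : ℕ, ¬ V SZ ⊆ (Tm f)^[k] ⁻¹' ((Tm f)^[m] '' V SY) := by
  refine ⟨F2, inferInstance, inferInstance, 3, f0, fun S ⟨Φ, hΦ, _, hY⟩ => ?_⟩
  obtain ⟨s, -, hs⟩ := (Set.infinite_univ (α := K)).exists_notMem_finite (hΦ.image fun p => p 2)
  have hs : ![0, 0, s] ∉ V S := fun h => by
    obtain ⟨k, -, hk⟩ := hY _ h
    rw [Function.iterate_fixed (fix s)] at hk
    exact hs ⟨_, hk, rfl⟩
  obtain ⟨u, hu0, hu⟩ := good hs
  obtain ⟨r, hr, hur⟩ := ord hu0
  refine ⟨{X 0 - X 1, X 2 ^ r - X 0 ^ r}, ⟨0, ext3 (by simp [T0]) (by simp [T1]) (by simp [T2]),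
    fun z hz => ?_⟩, fun k m hsub => ?_⟩
  · have h1 := hz _ (Or.inl rfl)
    have h2 := hz _ (Or.inr rfl)
    simp only [map_sub, map_pow, aeval_X, sub_eq_zero] at h1 h2
    have : z = ![z 0, z 0, z 2 / z 0 * z 0] := by
      refine ext3 rfl h1.symm ?_
      by_cases h0 : z 0 = 0
      · rw [h0, zero_pow hr.ne'] at h2
        simp [h0, pow_eq_zero_iff hr.ne' |>.1 h2]
      · simp [div_mul_cancel₀ _ h0]
    rw [this]; exact hit _ _
  · have mem : ∀ t : K, ![t, t, u * t] ∈
        V ({X 0 - X 1, X 2 ^ r - X 0 ^ r} : Set (MvPolynomial (Fin 3) F2)) := by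
      rintro t g (rfl | rfl) <;> simp [mul_pow, hur]
    obtain ⟨a, b, ha, -, e⟩ := param k
    have hx : ∀ t : K, t * a.eval t ≠ 0 → ((Tm f0)^[k] ![t, t, u * t]) 0 ≠ 0 := fun t ht => by
      rw [e]; exact ht
    rcases lt_or_ge k m with h | h
    · obtain ⟨t, ht⟩ := (cofin (Xa ha)).nonempty
      have ht : t * a.eval t ≠ 0 := by simpa using ht
      obtain ⟨q, -, hq⟩ := hsub (mem t)
      obtain ⟨c, rfl⟩ := Nat.exists_eq_add_of_lt h
      rw [add_assoc, Function.iterate_add_apply] at hq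
      have := inj_iter k hq.symm (hx t ht)
      rw [Function.iterate_succ_apply'] at this
      exact left_ne_zero_of_mul ht (notim this)
    · obtain ⟨j, rfl⟩ := Nat.exists_eq_add_of_le h
      apply hu j
      intro t g hg
      obtain ⟨a', b', -, -, e'⟩ := param j
      have hv : ∀ t : K, (fun i => (![Polynomial.X * a', .X ^ (j + 1) * b', .C u * (.X * a')] i).eval t) =
          (Tm f0)^[j] ![t, t, u * t] := fun t => by
        rw [e']; exact ext3 (by simp) (by simp) (by simp)
      rw [← hv]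
      refine zero_of_inf g _ (Set.Infinite.mono (fun t ht => ?_) (cofin (Xa ha))) t
      have ht : t * a.eval t ≠ 0 := by simpa using ht
      obtain ⟨q, hqS, hq⟩ := hsub (mem t)
      have h2 := hx t ht
      rw [Function.iterate_add_apply] at hq h2
      rw [Set.mem_setOf_eq, hv, inj_iter m hq.symm h2]
      exact hqS g hg

end Pool.Agent.Results.MP_b41bf9_ag.Counter
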